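import Pool.Agent.TH837.SW.Low
import Pool.Agent.TH837.KC.Up

/-!
General (max,+) programs for complete trees.
-/

set_option autoImplicit false

namespace Pool.Agent.TH837.SW

open Finset
open Pool.Agent.TH837.MX (Prog Computes)
open Pool.Agent.TH837.KC (le_fold fold_att)

section extl

variable {Ω : Type}

/-- `g` can be computed with `c` more instructions from the functions in `l₀` -/
def ExtL (l₀ : List ((Ω → ℝ) → ℝ)) (g : (Ω → ℝ) → ℝ) (c : ℕ) : Prop :=
  ∀ l, Prog l → (∀ f ∈ l₀, f ∈ l) → ∃ l', Prog l' ∧ (∀ f ∈ l, f ∈ l') ∧ g ∈ l' ∧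
    l'.length ≤ l.length + c

variable {l₀ : List ((Ω → ℝ) → ℝ)}

theorem ExtL.mem {g : (Ω → ℝ) → ℝ} (h : g ∈ l₀) : ExtL l₀ g 0 := fun l hl h' =>
  ⟨l, hl, fun _ h => h, h' g h, le_rfl⟩

theorem ExtL.inp (e : Ω) : ExtL l₀ (fun w => w e) 1 := fun l hl _ =>
  ⟨_, Prog.inp l e hl, fun _ hg => List.mem_cons_of_mem _ hg, List.mem_cons_self, by simp⟩

theorem ExtL.cst (c : ℝ) : ExtL l₀ (fun _ : Ω → ℝ => c) 1 := fun l hl _ =>
  ⟨_, Prog.cst l c hl, fun _ hg => List.mem_cons_of_mem _ hg, List.mem_cons_self, by simp⟩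

theorem ExtL.add {f g : (Ω → ℝ) → ℝ} {a b : ℕ} (hf : ExtL l₀ f a) (hg : ExtL l₀ g b) :
    ExtL l₀ (fun w => f w + g w) (a + b + 1) := by
  intro l hl h0
  obtain ⟨l', h1, h2, h3, h4⟩ := hf l hl h0
  obtain ⟨l'', h5, h6, h7, h8⟩ := hg l' h1 fun f hf => h2 f (h0 f hf)
  exact ⟨_, Prog.ad l'' f g h5 (h6 f h3) h7, fun _ h => List.mem_cons_of_mem _ (h6 _ (h2 _ h)),
    List.mem_cons_self, by rw [List.length_cons]; omega⟩

theorem ExtL.max {f g : (Ω → ℝ) → ℝ} {a b : ℕ} (hf : ExtL l₀ f a) (hg : ExtL l₀ g b) :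
    ExtL l₀ (fun w => max (f w) (g w)) (a + b + 1) := by
  intro l hl h0
  obtain ⟨l', h1, h2, h3, h4⟩ := hf l hl h0
  obtain ⟨l'', h5, h6, h7, h8⟩ := hg l' h1 fun f hf => h2 f (h0 f hf)
  exact ⟨_, Prog.mx l'' f g h5 (h6 f h3) h7, fun _ h => List.mem_cons_of_mem _ (h6 _ (h2 _ h)),
    List.mem_cons_self, by rw [List.length_cons]; omega⟩

theorem ExtL.sum {ι : Type} [DecidableEq ι] (F : ι → (Ω → ℝ) → ℝ) (c : ℕ) (s : Finset ι)
    (h : ∀ i ∈ s, ExtL l₀ (F i) c) : ExtL l₀ (fun w => ∑ i ∈ s, F i w) (s.card * (c + 1) + 1) := by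
  induction s using Finset.induction_on with
  | empty => simpa using ExtL.cst (l₀ := l₀) 0
  | insert a s ha ih =>
    have h1 := (h a (mem_insert_self _ _)).add (ih fun i hi => h i (mem_insert_of_mem hi))
    have h2 : (fun w => F a w + ∑ i ∈ s, F i w) = fun w => ∑ i ∈ insert a s, F i w := by
      funext w
      rw [sum_insert ha]
    rw [h2] at h1
    rw [card_insert_of_notMem ha]
    have h3 : c + (s.card * (c + 1) + 1) + 1 = (s.card + 1) * (c + 1) + 1 := by ring
    rw [h3] at h1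
    exact h1

theorem ExtL.fold {ι : Type} [DecidableEq ι] (F : ι → (Ω → ℝ) → ℝ) (c : ℕ) (s : Finset ι)
    (h : ∀ i ∈ s, ExtL l₀ (F i) c) :
    ExtL l₀ (fun w => s.fold Max.max 0 fun i => F i w) (s.card * (c + 1) + 1) := by
  induction s using Finset.induction_on with
  | empty => simpa using ExtL.cst (l₀ := l₀) 0
  | insert a s ha ih =>
    have h1 := (h a (mem_insert_self _ _)).max (ih fun i hi => h i (mem_insert_of_mem hi))
    have h2 : (fun w => Max.max (F a w) (s.fold Max.max 0 fun i => F i w)) =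
        fun w => (insert a s).fold Max.max 0 fun i => F i w := by
      funext w
      rw [fold_insert ha]
    rw [h2] at h1
    rw [card_insert_of_notMem ha]
    have h3 : c + (s.card * (c + 1) + 1) + 1 = (s.card + 1) * (c + 1) + 1 := by ring
    rw [h3] at h1
    exact h1

theorem ext_listL {ι : Type} (g : ι → (Ω → ℝ) → ℝ) (c : ℕ) (T : List ι)
    (h : ∀ t ∈ T, ExtL l₀ (g t) c) :
    ∀ l, Prog l → (∀ f ∈ l₀, f ∈ l) → ∃ l', Prog l' ∧ (∀ f ∈ l, f ∈ l') ∧
      (∀ t ∈ T, g t ∈ l') ∧ l'.length ≤ l.length + T.length * c := by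
  induction T with
  | nil => exact fun l hl _ => ⟨l, hl, fun _ h => h, by simp, by simp⟩
  | cons t T ih =>
    intro l hl hl₀
    obtain ⟨l', h1, h2, h3, h4⟩ := ih (fun t ht => h t (List.mem_cons_of_mem _ ht)) l hl hl₀
    obtain ⟨l'', h5, h6, h7, h8⟩ := h t List.mem_cons_self l' h1 fun f hf => h2 f (hl₀ f hf)
    refine ⟨l'', h5, fun f hf => h6 f (h2 f hf), fun t' ht' => ?_, ?_⟩
    · rcases List.mem_cons.1 ht' with rfl | ht'
      · exact h7
      · exact h6 _ (h3 t' ht')
    · rw [List.length_cons]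
      calc l''.length ≤ l'.length + c := h8
        _ ≤ l.length + T.length * c + c := by omega
        _ = _ := by ring

/-- several families one after the other -/
theorem multi {ι κ : Type} (g : ι → κ → (Ω → ℝ) → ℝ) (c : ℕ)
    (h : ∀ t, ∀ l, Prog l → ∃ l', Prog l' ∧ (∀ f ∈ l, f ∈ l') ∧ (∀ b, g t b ∈ l') ∧
      l'.length ≤ l.length + c) (T : List ι) :
    ∀ l, Prog l → ∃ l', Prog l' ∧ (∀ f ∈ l, f ∈ l') ∧ (∀ t ∈ T, ∀ b, g t b ∈ l') ∧
      l'.length ≤ l.length + T.length * c := by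
  induction T with
  | nil => exact fun l hl => ⟨l, hl, fun _ h => h, by simp, by simp⟩
  | cons t T ih =>
    intro l hl
    obtain ⟨l', h1, h2, h3, h4⟩ := ih l hl
    obtain ⟨l'', h5, h6, h7, h8⟩ := h t l' h1
    refine ⟨l'', h5, fun f hf => h6 f (h2 f hf), fun t' ht' b => ?_, ?_⟩
    · rcases List.mem_cons.1 ht' with rfl | ht'
      · exact h7 b
      · exact h6 _ (h3 t' ht' b)
    · rw [List.length_cons]
      calc l''.length ≤ l'.length + c := h8
        _ ≤ l.length + T.length * c + c := by omega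
        _ = _ := by ring

end extl

/-- the largest weight of an assignment of the complete tree with the value `a` at the root -/
noncomputable def opt (D n : ℕ) : ∀ h, Fin n → (In (TE D h) n → ℝ) → ℝ
  | 0, _, _ => 0
  | h + 1, a, w => ∑ c : Fin D, (univ : Finset (Fin n)).fold max 0 fun b =>
      w ((show TE D (h + 1) from (c, none)), a, b) +
        opt D n h b fun x => w ((show TE D (h + 1) from (c, some x.1)), x.2)

theorem opt_prog (D : ℕ) : ∀ h, ∃ C : ℕ, ∀ n : ℕ, 1 ≤ n → ∀ (Ω : Type) (φ : In (TE D h) n → Ω)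
    (l : List ((Ω → ℝ) → ℝ)), Prog l → ∃ l', Prog l' ∧ (∀ f ∈ l, f ∈ l') ∧
      (∀ a, (fun w => opt D n h a fun x => w (φ x)) ∈ l') ∧ l'.length ≤ l.length + C * n ^ 2
  | 0 => by
    refine ⟨1, fun n hn Ω φ l hl => ⟨_, Prog.cst l 0 hl, fun f hf => List.mem_cons_of_mem _ hf,
      fun a => ?_, ?_⟩⟩
    · have h1 : (fun w : Ω → ℝ => opt D n 0 a fun x => w (φ x)) = fun _ => 0 := rfl
      rw [h1]
      exact List.mem_cons_self
    · rw [List.length_cons]
      have := Nat.one_le_pow 2 n hn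
      omega
  | h + 1 => by
    classical
    obtain ⟨C, hC⟩ := opt_prog D h
    refine ⟨D * C + 5 * D + 1, fun n hn Ω φ l hl => ?_⟩
    obtain ⟨l₁, a1, a2, a3, a4⟩ := multi (fun (c : Fin D) (b : Fin n) (w : Ω → ℝ) =>
      opt D n h b fun x => w (φ ((show TE D (h + 1) from (c, some x.1)), x.2))) (C * n ^ 2)
      (fun c l hl => hC n hn Ω (fun x => φ ((show TE D (h + 1) from (c, some x.1)), x.2)) l hl)
      (univ : Finset (Fin D)).toList l hl
    have h1 : ∀ a ∈ (univ : Finset (Fin n)).toList, ExtL l₁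
        (fun w : Ω → ℝ => opt D n (h + 1) a fun x => w (φ x)) (D * (3 * n + 2) + 1) := by
      intro a _
      have h2 := ExtL.sum (l₀ := l₁) (fun (c : Fin D) (w : Ω → ℝ) =>
        (univ : Finset (Fin n)).fold Max.max 0 fun b =>
          w (φ ((show TE D (h + 1) from (c, none)), a, b)) +
          opt D n h b fun x => w (φ ((show TE D (h + 1) from (c, some x.1)), x.2)))
        (3 * n + 1) univ (fun c _ => by
          have h3 := ExtL.fold (l₀ := l₁) (fun (b : Fin n) (w : Ω → ℝ) =>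
            w (φ ((show TE D (h + 1) from (c, none)), a, b)) +
            opt D n h b fun x => w (φ ((show TE D (h + 1) from (c, some x.1)), x.2))) 2 univ
            (fun b _ => (ExtL.inp _).add (ExtL.mem (a3 c (mem_toList.2 (mem_univ c)) b)))
          rw [card_univ, Fintype.card_fin] at h3
          have h4 : n * (2 + 1) + 1 = 3 * n + 1 := by ring
          rw [h4] at h3
          exact h3)
      rw [card_univ, Fintype.card_fin] at h2
      exact h2
    obtain ⟨l₂, b1, b2, b3, b4⟩ := ext_listL _ _ _ h1 l₁ a1 fun _ h => h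
    refine ⟨l₂, b1, fun f hf => b2 f (a2 f hf), fun a => b3 a (mem_toList.2 (mem_univ a)), ?_⟩
    rw [length_toList, card_univ, Fintype.card_fin] at a4 b4
    have e0 : n ≤ n ^ 2 := by nlinarith
    have e1 : n * (D * (3 * n + 2) + 1) ≤ (5 * D + 1) * n ^ 2 := by
      calc n * (D * (3 * n + 2) + 1) = 3 * D * n ^ 2 + 2 * D * n + n := by ring
        _ ≤ 3 * D * n ^ 2 + 2 * D * n ^ 2 + n ^ 2 := by gcongr
        _ = _ := by ring
    calc l₂.length ≤ l.length + D * (C * n ^ 2) + n * (D * (3 * n + 2) + 1) := by omega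
      _ ≤ l.length + D * (C * n ^ 2) + (5 * D + 1) * n ^ 2 := by omega
      _ = _ := by ring

theorem val_succ {D n h : ℕ} (z : TV D (h + 1) → Fin n) (w : In (TE D (h + 1)) n → ℝ) :
    val (src D (h + 1)) (tgt D (h + 1)) univ z w = ∑ c : Fin D,
      (w ((show TE D (h + 1) from (c, none)), z none, z (some (c, rt D h))) +
        val (src D h) (tgt D h) univ (fun x => z (some (c, x)))
          fun x => w ((show TE D (h + 1) from (c, some x.1)), x.2)) := by
  rw [SW.val, sum_TE]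
  rfl

theorem opt_up {D n : ℕ} : ∀ (h : ℕ) (w : In (TE D h) n → ℝ), (∀ x, 0 ≤ w x) →
    ∀ z : TV D h → Fin n, val (src D h) (tgt D h) univ z w ≤ opt D n h (z (rt D h)) w
  | 0, w, _, z => by
    have h1 : val (src D 0) (tgt D 0) univ z w = 0 := sum_eq_zero fun e _ =>
      (show Empty from e).elim
    rw [h1]
    exact le_rfl
  | h + 1, w, hw, z => by
    rw [val_succ, opt]
    refine sum_le_sum fun c _ => ?_
    have h1 := opt_up h (fun x => w ((show TE D (h + 1) from (c, some x.1)), x.2))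
      (fun x => hw _) fun x => z (some (c, x))
    refine le_trans (add_le_add_right h1 _) ?_
    exact le_fold (F := fun b => w ((show TE D (h + 1) from (c, none)), z (rt D (h + 1)), b) +
        opt D n h b fun x => w ((show TE D (h + 1) from (c, some x.1)), x.2)) (mem_univ _)

theorem opt_att {D n : ℕ} : ∀ (h : ℕ) (w : In (TE D h) n → ℝ), (∀ x, 0 ≤ w x) →
    ∀ a : Fin n, ∃ z : TV D h → Fin n, z (rt D h) = a ∧
      opt D n h a w ≤ val (src D h) (tgt D h) univ z w
  | 0, w, _, a => by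
    refine ⟨fun _ => a, rfl, ?_⟩
    have h1 : val (src D 0) (tgt D 0) univ (fun _ => a) w = 0 := sum_eq_zero fun e _ =>
      (show Empty from e).elim
    rw [h1]
    exact le_rfl
  | h + 1, w, hw, a => by
    have h1 : ∀ c : Fin D, ∃ z : TV D h → Fin n,
        (univ : Finset (Fin n)).fold max 0 (fun b =>
          w ((show TE D (h + 1) from (c, none)), a, b) +
            opt D n h b fun x => w ((show TE D (h + 1) from (c, some x.1)), x.2)) ≤
          w ((show TE D (h + 1) from (c, none)), a, z (rt D h)) +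
            val (src D h) (tgt D h) univ z
              fun x => w ((show TE D (h + 1) from (c, some x.1)), x.2) := by
      intro c
      rcases fold_att (univ : Finset (Fin n)) (fun b =>
          w ((show TE D (h + 1) from (c, none)), a, b) +
            opt D n h b fun x => w ((show TE D (h + 1) from (c, some x.1)), x.2)) with h2 | ⟨b, _, h2⟩
      · refine ⟨fun _ => a, h2.le.trans (add_nonneg (hw _) ?_)⟩
        exact sum_nonneg fun _ _ => hw _
      · obtain ⟨z, hz, h3⟩ := opt_att h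
          (fun x => w ((show TE D (h + 1) from (c, some x.1)), x.2)) (fun x => hw _) b
        refine ⟨z, h2.le.trans ?_⟩
        rw [hz]
        exact add_le_add_right h3 _
    choose z hz using h1
    refine ⟨fun x => match (show Option (Fin D × TV D h) from x) with
      | none => a
      | some (c, y) => z c y, rfl, ?_⟩
    rw [val_succ, opt]
    exact sum_le_sum fun c _ => hz c

theorem treeExact (D h : ℕ) : ∃ C : ℕ, ∀ n : ℕ, 1 ≤ n →
    ∃ f : (In (TE D h) n → ℝ) → ℝ, Computes f (C * n ^ 2) ∧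
      ∀ w : In (TE D h) n → ℝ, (∀ e, 0 ≤ w e) →
        (∃ z : TV D h → Fin n, f w = val (src D h) (tgt D h) univ z w) ∧
        ∀ z : TV D h → Fin n, val (src D h) (tgt D h) univ z w ≤ f w := by
  classical
  obtain ⟨C, hC⟩ := opt_prog D h
  refine ⟨C + 2, fun n hn => ?_⟩
  obtain ⟨l₁, a1, _, a3, a4⟩ := hC n hn (In (TE D h) n) (fun x => x) [] Prog.nil
  have h1 := ExtL.fold (l₀ := l₁) (fun (a : Fin n) (w : In (TE D h) n → ℝ) => opt D n h a w) 0
    univ (fun a _ => ExtL.mem (a3 a))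
  obtain ⟨l₂, b1, _, b3, b4⟩ := h1 l₁ a1 fun _ h => h
  have hup : ∀ w : In (TE D h) n → ℝ, (∀ e, 0 ≤ w e) → ∀ z : TV D h → Fin n,
      val (src D h) (tgt D h) univ z w ≤ univ.fold Max.max 0 fun a => opt D n h a w :=
    fun w hw z => (opt_up h w hw z).trans (le_fold (F := fun a => opt D n h a w) (mem_univ _))
  refine ⟨_, ⟨l₂, b1, b3, ?_⟩, fun w hw => ⟨?_, hup w hw⟩⟩
  · rw [card_univ, Fintype.card_fin] at b4
    rw [List.length_nil, zero_add] at a4
    have e1 : n * (0 + 1) + 1 ≤ 2 * n ^ 2 := by nlinarith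
    have e2 : (C + 2) * n ^ 2 = C * n ^ 2 + 2 * n ^ 2 := by ring
    omega
  · have d : Fin n := ⟨0, hn⟩
    rcases fold_att (univ : Finset (Fin n)) (fun a => opt D n h a w) with h2 | ⟨a, _, h2⟩
    · refine ⟨fun _ => d, le_antisymm ?_ (hup w hw _)⟩
      exact h2.le.trans (sum_nonneg fun _ _ => hw _)
    · obtain ⟨z, _, h3⟩ := opt_att h w hw a
      exact ⟨z, le_antisymm (h2.le.trans h3) (hup w hw z)⟩

end Pool.Agent.TH837.SW
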