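import Pool.Agent.TH837.SW.Up

/-!
Skew (max,+) programs for all constraint graphs.
-/

set_option autoImplicit false

namespace Pool.Agent.TH837.SW

open Finset

variable {V E : Type} [Fintype V] [DecidableEq V] [Fintype E] [DecidableEq E]

/-- for all nonnegative weights of the edges, some subgraph of pathwidth at most `v` has at least
`α` times the total weight -/
def CovP (s t : E → V) (v : ℕ) (α : ℝ) : Prop :=
  ∀ lam : E → ℝ, (∀ e, 0 ≤ lam e) → ∃ F, PW s t v F ∧ α * ∑ e, lam e ≤ ∑ e ∈ F, lam e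

variable {s t : E → V}

theorem upperP {v : ℕ} {α : ℝ} (h : CovP s t v α) :
    ∃ C : ℕ, ∀ n : ℕ, 1 ≤ n → ∃ f : (In E n → ℝ) → ℝ, SkComputes f (C * n ^ (v + 1)) ∧
      ∀ w : In E n → ℝ, (∀ e, 0 ≤ w e) → (∃ z : V → Fin n, f w ≤ val s t univ z w) ∧
        ∀ z : V → Fin n, α * val s t univ z w ≤ f w := by
  classical
  refine upper (univ.filter fun F : Finset E => PW s t v F) (fun F hF => (mem_filter.1 hF).2) ?_
  intro lam hlam
  obtain ⟨F, h1, h2⟩ := h lam hlam
  exact ⟨F, mem_filter.2 ⟨mem_univ _, h1⟩, h2⟩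

theorem lowerP {v : ℕ} {α : ℝ} (h : ¬ CovP s t v α) :
    ∃ lam : E → ℝ, (∀ e, 0 ≤ lam e) ∧ ∀ (q : ℝ) (n : ℕ) (R : Type) [Fintype R] [Nonempty R]
      (f : R → (In E n → ℝ) → ℝ), Approx s t lam α q f → ∀ m : ℕ, (∀ r, SkComputes (f r) m) →
        q * n ^ (v + 2) ≤ (Fintype.card V).choose (v + 2) * m := by
  rw [CovP] at h
  push Not at h
  obtain ⟨lam, hlam, hF⟩ := h
  exact ⟨lam, hlam, fun q n R _ _ f hf m hs => lower hF hf hs⟩

theorem covP_one {v : ℕ} : CovP s t v 1 ↔ PW s t v univ := by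
  constructor
  · intro h
    obtain ⟨F, hF, h1⟩ := h (fun _ => 1) (fun _ => zero_le_one)
    rw [one_mul, sum_const, sum_const, nsmul_eq_mul, nsmul_eq_mul, mul_one, mul_one] at h1
    have h2 : (univ : Finset E).card ≤ F.card := by exact_mod_cast h1
    rw [← eq_of_subset_of_card_le (subset_univ F) h2]
    exact hF
  · intro h lam _
    exact ⟨univ, h, by rw [one_mul]⟩

end Pool.Agent.TH837.SW
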